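import Pool.Agent.Work.MP_85af13_lc.SSG

/-!
Simple stochastic games (all of them, not only stopping ones) and systems of inequalities with
integers: value at least one half if and only if the system

  `x v ≤ max 0 (w v - 1)`, `w v ≤` (max, min, average) of the values of the two successors

with the 1-sink replaced by `bigN n` and the 0-sink by `0` has a solution with `thr n ≤ x v0`.
-/

set_option autoImplicit false
set_option linter.unusedSectionVars false
set_option linter.unusedSimpArgs false

namespace Pool.Agent.Work.MP_85af13_lc.G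

open Pool.Agent.Work.MP_85af13_lc

/-- The number representing the value `1`. -/
def bigN (n : ℕ) : ℕ := 2 ^ ((n + 1) ^ 2 + 3)

/-- The threshold: one half of `bigN n` minus an error term. -/
def thr (n : ℕ) : ℕ := 2 ^ ((n + 1) ^ 2 + 2) - 2 ^ (n + 2)

variable {n : ℕ} (G : SSG n)

/-- Integer value of a position, the 1-sink has the value `N`. -/
def pv (N : ℤ) (x : Fin n → ℤ) : Fin n ⊕ Bool → ℤ
  | Sum.inl v => x v
  | Sum.inr b => if b then N else 0

/-- The system of inequalities. -/
def PairSol (N θ : ℤ) (v0 : Fin n) (x w : Fin n → ℤ) : Prop :=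
  θ ≤ x v0 ∧ (∀ v, x v ≤ 0 ∨ x v ≤ w v - 1) ∧ ∀ v, match G.kind v with
    | Kind.max => w v ≤ pv N x (G.succ v false) ∨ w v ≤ pv N x (G.succ v true)
    | Kind.min => w v ≤ pv N x (G.succ v false) ∧ w v ≤ pv N x (G.succ v true)
    | Kind.avg => 2 * w v ≤ pv N x (G.succ v false) + pv N x (G.succ v true)

/-! ### The chain in which the vertices of probability zero are redirected to the 0-sink -/

open Classical in
/-- The redirected chain. -/
noncomputable def redir (nx : Fin n → Bool → Fin n ⊕ Bool) (p : Fin n → ℝ) (v : Fin n)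
    (i : Bool) : Fin n ⊕ Bool := if p v = 0 then Sum.inr false else nx v i

theorem reach_le_winProb (σ τ : Fin n → Bool) (k : ℕ) (v : Fin n) :
    G.reach σ τ k (Sum.inl v) ≤ G.winProb σ τ v :=
  le_ciSup (f := fun k => G.reach σ τ k (Sum.inl v))
    ⟨1, by rintro _ ⟨k, rfl⟩; exact G.reach_le_one σ τ k _⟩ k

theorem winProb_nonneg (σ τ : Fin n → Bool) (v : Fin n) : 0 ≤ G.winProb σ τ v :=
  (G.reach_nonneg σ τ 0 _).trans (reach_le_winProb G σ τ 0 v)

theorem redir_stopping (σ τ : Fin n → Bool) :
    ChainStopping (redir (G.next σ τ) (G.winProb σ τ)) := by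
  have key : ∀ (k : ℕ) (v : Fin n), 0 < G.reach σ τ k (Sum.inl v) → ∃ b : Bool,
      Relation.ReflTransGen (SSG.Move (redir (G.next σ τ) (G.winProb σ τ))) (Sum.inl v)
        (Sum.inr b) := by
    intro k
    induction k with
    | zero => intro v h; simp [SSG.reach] at h
    | succ k ih =>
      intro v h
      have hp : G.winProb σ τ v ≠ 0 := (h.trans_le (reach_le_winProb G σ τ (k + 1) v)).ne'
      have hstep : ∀ i, SSG.Move (redir (G.next σ τ) (G.winProb σ τ)) (Sum.inl v)
          (G.next σ τ v i) := fun i => ⟨i, by simp [redir, hp]⟩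
      rw [G.reach_succ] at h
      have h2 : ∃ i, 0 < G.reach σ τ k (G.next σ τ v i) := by
        by_contra hcon
        push Not at hcon
        linarith [hcon false, hcon true]
      obtain ⟨i, hi⟩ := h2
      rcases hq : G.next σ τ v i with u | b
      · rw [hq] at hi
        obtain ⟨b, hb⟩ := ih u hi
        have := hstep i
        rw [hq] at this
        exact ⟨b, Relation.ReflTransGen.head this hb⟩
      · have := hstep i
        rw [hq] at this
        exact ⟨b, Relation.ReflTransGen.single this⟩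
  intro v
  by_cases hp : G.winProb σ τ v = 0
  · exact ⟨false, Relation.ReflTransGen.single ⟨false, by simp [redir, hp]⟩⟩
  · by_contra hcon
    apply hp
    have h0 : ∀ k, G.reach σ τ k (Sum.inl v) = 0 := by
      intro k
      by_contra h1
      exact hcon (key k v (lt_of_le_of_ne (G.reach_nonneg σ τ k _) (Ne.symm h1)))
    unfold SSG.winProb
    simp [h0]

theorem winProb_redir (σ τ : Fin n → Bool) (v : Fin n) :
    G.winProb σ τ v = (ext (G.winProb σ τ) sinkVal
      (redir (G.next σ τ) (G.winProb σ τ) v false) +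
      ext (G.winProb σ τ) sinkVal (redir (G.next σ τ) (G.winProb σ τ) v true)) / 2 := by
  by_cases hp : G.winProb σ τ v = 0
  · simp only [redir, hp, if_true, ext, sinkVal]; simp
  · simp only [redir, hp, if_false]
    exact G.winProb_eq σ τ v

theorem winProb_rational (σ τ : Fin n → Bool) (v : Fin n) :
    ∃ a d : ℤ, 0 < d ∧ d ≤ (n.factorial : ℤ) * 2 ^ n ∧ G.winProb σ τ v * d = a :=
  rational_value (redir_stopping G σ τ) _ (winProb_redir G σ τ) v

/-! ### Numbers -/

theorem two_thr (n : ℕ) : 2 * ((thr n : ℕ) : ℝ) = bigN n - 8 * 2 ^ n := by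
  have h1 : 2 ^ (n + 2) ≤ 2 ^ ((n + 1) ^ 2 + 2) := Nat.pow_le_pow_right (by norm_num) (by nlinarith)
  unfold thr bigN
  rw [Nat.cast_sub h1]
  push_cast
  rw [pow_succ (2 : ℝ) ((n + 1) ^ 2 + 2), pow_add (2 : ℝ) n 2]
  ring

theorem bigN_big (n : ℕ) : (n.factorial : ℝ) * 2 ^ n * (8 * 2 ^ n) < bigN n := by
  have h1 : n.factorial ≤ 2 ^ (n * n) := by
    calc n.factorial ≤ n ^ n := Nat.factorial_le_pow n
      _ ≤ (2 ^ n) ^ n := Nat.pow_le_pow_left (Nat.lt_two_pow_self).le n
      _ = 2 ^ (n * n) := by rw [← pow_mul]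
  have h2 : n.factorial * 2 ^ n * (8 * 2 ^ n) < bigN n := by
    calc n.factorial * 2 ^ n * (8 * 2 ^ n) ≤ 2 ^ (n * n) * 2 ^ n * (8 * 2 ^ n) :=
          Nat.mul_le_mul_right _ (Nat.mul_le_mul_right _ h1)
      _ = 2 ^ (n * n + n + (3 + n)) := by
          rw [pow_add, pow_add, pow_add]; norm_num
      _ < bigN n := by
          unfold bigN
          exact Nat.pow_lt_pow_right (by norm_num) (by nlinarith)
  exact_mod_cast h2

/-! ### Soundness -/

theorem value_of_pairSol (v0 : Fin n) (x w : Fin n → ℤ)
    (h : PairSol G (bigN n) (thr n) v0 x w) : G.ValueAtLeastHalf v0 := by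
  classical
  obtain ⟨hθ, hx, hw⟩ := h
  refine ⟨fun v => decide (w v ≤ pv (bigN n) x (G.succ v true)), fun τ => ?_⟩
  set σ : Fin n → Bool := fun v => decide (w v ≤ pv (bigN n) x (G.succ v true)) with hσ
  set p := G.winProb σ τ with hp
  have hp0 : ∀ v, 0 ≤ p v := fun v => winProb_nonneg G σ τ v
  have hstep : ∀ v, 2 * w v ≤ pv (bigN n) x (G.next σ τ v false) +
      pv (bigN n) x (G.next σ τ v true) := by
    intro v
    have hv := hw v
    simp only [SSG.next]
    cases hk : G.kind v with
    | max =>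
      simp only [hk] at hv ⊢
      by_cases h : w v ≤ pv (bigN n) x (G.succ v true)
      · have : σ v = true := by simp [hσ, h]
        rw [this]; linarith
      · have : σ v = false := by simp [hσ, h]
        rw [this]
        rcases hv with h' | h'
        · linarith
        · exact absurd h' h
    | min =>
      simp only [hk] at hv ⊢
      cases τ v
      · linarith [hv.1]
      · linarith [hv.2]
    | avg =>
      simp only [hk] at hv ⊢
      exact hv
  -- the difference `x - N p` is nonpositive
  have hN0 : (0 : ℝ) < bigN n := by unfold bigN; positivity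
  have hdiff : ∀ v, (x v : ℝ) - bigN n * p v ≤ 0 := by
    obtain ⟨u, -, hu⟩ := Finset.exists_max_image Finset.univ
      (fun v => (x v : ℝ) - bigN n * p v) ⟨v0, Finset.mem_univ _⟩
    intro v
    refine (hu v (Finset.mem_univ v)).trans ?_
    by_contra hcon
    push Not at hcon
    have hxu : (0 : ℝ) < x u := by
      have := mul_nonneg hN0.le (hp0 u)
      linarith
    have hxu' : 0 < x u := by exact_mod_cast hxu
    have h1 : x u ≤ w u - 1 := by
      rcases hx u with h | h
      · omega
      · exact h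
    have hext : ∀ q, ((pv (bigN n) x q : ℤ) : ℝ) - bigN n * ext p sinkVal q ≤
        (x u : ℝ) - bigN n * p u := by
      intro q
      rcases q with t | b
      · exact hu t (Finset.mem_univ t)
      · cases b <;> simp [pv, ext, sinkVal] <;> linarith
    have h2 := G.winProb_eq σ τ u
    rw [← hp] at h2
    have h3 : (2 * w u : ℝ) ≤ pv (bigN n) x (G.next σ τ u false) +
        pv (bigN n) x (G.next σ τ u true) := by exact_mod_cast hstep u
    have h4 : (x u : ℝ) ≤ w u - 1 := by exact_mod_cast h1
    have h5 := hext (G.next σ τ u false)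
    have h6 := hext (G.next σ τ u true)
    have h7 : (bigN n : ℝ) * p u = (bigN n * ext p sinkVal (G.next σ τ u false) +
        bigN n * ext p sinkVal (G.next σ τ u true)) / 2 := by rw [h2]; ring
    linarith
  obtain ⟨a, d, hd0, hd1, hda⟩ := winProb_rational G σ τ v0
  rw [← hp] at hda
  by_contra hcon
  push Not at hcon
  have hdR : (0 : ℝ) < d := by exact_mod_cast hd0
  have h1 : (2 * a : ℤ) < d := by
    have : (2 * a : ℝ) < d := by rw [← hda]; nlinarith
    exact_mod_cast this
  have h2 : (2 * a : ℤ) + 1 ≤ d := by omega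
  have h3 : (2 : ℝ) * (p v0 * d) + 1 ≤ d := by rw [hda]; exact_mod_cast h2
  have hθ' : ((thr n : ℕ) : ℝ) ≤ x v0 := by exact_mod_cast hθ
  have h4 : (bigN n : ℝ) * (1 / 2 - p v0) ≤ 4 * 2 ^ n := by
    have h5 := hdiff v0
    have h6 := two_thr n
    linarith
  have h5 : (bigN n : ℝ) ≤ 8 * 2 ^ n * d := by
    have h6 : (1 : ℝ) ≤ 2 * d * (1 / 2 - p v0) := by nlinarith
    calc (bigN n : ℝ) = bigN n * 1 := by ring
      _ ≤ bigN n * (2 * d * (1 / 2 - p v0)) := mul_le_mul_of_nonneg_left h6 hN0.le
      _ = 2 * d * (bigN n * (1 / 2 - p v0)) := by ring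
      _ ≤ 2 * d * (4 * 2 ^ n) := mul_le_mul_of_nonneg_left h4 (by positivity)
      _ = 8 * 2 ^ n * d := by ring
  have h7 : (d : ℝ) ≤ (n.factorial : ℝ) * 2 ^ n := by exact_mod_cast hd1
  have h8 := bigN_big n
  have h9 : 8 * 2 ^ n * (d : ℝ) ≤ 8 * 2 ^ n * ((n.factorial : ℝ) * 2 ^ n) :=
    mul_le_mul_of_nonneg_left h7 (by positivity)
  linarith

/-! ### Completeness -/

/-- The right-hand side of the system for `w`, if the maximizer uses `σ`. -/
def wOf (N : ℤ) (σ : Fin n → Bool) (x : Fin n → ℤ) (v : Fin n) : ℤ :=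
  match G.kind v with
  | Kind.max => pv N x (G.succ v (σ v))
  | Kind.min => min (pv N x (G.succ v false)) (pv N x (G.succ v true))
  | Kind.avg => (pv N x (G.succ v false) + pv N x (G.succ v true)) / 2

theorem pv_mono {N : ℤ} {x y : Fin n → ℤ} (h : ∀ v, x v ≤ y v) (q : Fin n ⊕ Bool) :
    pv N x q ≤ pv N y q := by
  rcases q with u | b
  · exact h u
  · exact le_rfl

theorem pv_bounds {N : ℤ} (hN : 0 ≤ N) {x : Fin n → ℤ} (h : ∀ v, 0 ≤ x v ∧ x v ≤ N)
    (q : Fin n ⊕ Bool) : 0 ≤ pv N x q ∧ pv N x q ≤ N := by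
  rcases q with u | b
  · exact h u
  · cases b <;> simp [pv, hN]

theorem wOf_mono {N : ℤ} (σ : Fin n → Bool) {x y : Fin n → ℤ} (h : ∀ v, x v ≤ y v) (v : Fin n) :
    wOf G N σ x v ≤ wOf G N σ y v := by
  unfold wOf
  cases G.kind v with
  | max => exact pv_mono h _
  | min => exact min_le_min (pv_mono h _) (pv_mono h _)
  | avg =>
    have h1 := pv_mono (N := N) h (G.succ v false)
    have h2 := pv_mono (N := N) h (G.succ v true)
    simp only
    omega

theorem wOf_bounds {N : ℤ} (hN : 0 ≤ N) (σ : Fin n → Bool) {x : Fin n → ℤ}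
    (h : ∀ v, 0 ≤ x v ∧ x v ≤ N) (v : Fin n) : 0 ≤ wOf G N σ x v ∧ wOf G N σ x v ≤ N := by
  unfold wOf
  cases G.kind v with
  | max => exact pv_bounds hN h _
  | min =>
    have h1 := pv_bounds hN h (G.succ v false)
    have h2 := pv_bounds hN h (G.succ v true)
    exact ⟨le_min h1.1 h2.1, (min_le_left _ _).trans h1.2⟩
  | avg =>
    have h1 := pv_bounds hN h (G.succ v false)
    have h2 := pv_bounds hN h (G.succ v true)
    simp only
    omega

/-- The operator of the system has a fixed point in the box. -/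
theorem exists_fix {N : ℤ} (hN : 0 ≤ N) (σ : Fin n → Bool) : ∃ x : Fin n → ℤ,
    (∀ v, 0 ≤ x v ∧ x v ≤ N) ∧ ∀ v, x v = max 0 (wOf G N σ x v - 1) := by
  classical
  let B : Finset (Fin n → ℤ) := (Fintype.piFinset (fun _ => Finset.Icc (0 : ℤ) N)).filter
    (fun x => ∀ v, x v ≤ max 0 (wOf G N σ x v - 1))
  have hB : ∀ x, x ∈ B ↔ (∀ v, 0 ≤ x v ∧ x v ≤ N) ∧ ∀ v, x v ≤ max 0 (wOf G N σ x v - 1) := by
    intro x
    simp [B, Fintype.mem_piFinset, Finset.mem_Icc]
  have hne : B.Nonempty := ⟨fun _ => 0, (hB _).2 ⟨fun _ => ⟨le_rfl, hN⟩, fun _ => le_max_left _ _⟩⟩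
  obtain ⟨x, hxB, hx⟩ := Finset.exists_max_image B (fun x => ∑ v, x v) hne
  obtain ⟨h1, h2⟩ := (hB x).1 hxB
  refine ⟨x, h1, ?_⟩
  set y : Fin n → ℤ := fun v => max 0 (wOf G N σ x v - 1) with hy
  have hyB : y ∈ B := by
    rw [hB]
    refine ⟨fun v => ⟨le_max_left _ _, ?_⟩, fun v => ?_⟩
    · have := (wOf_bounds G hN σ h1 v).2
      simp only [hy]
      exact max_le hN (by linarith)
    · exact max_le_max le_rfl (by linarith [wOf_mono G (N := N) σ h2 v])
  have h3 := hx y hyB
  intro v
  have h4 : ∀ v, x v ≤ y v := h2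
  by_contra hcon
  have h5 : x v < y v := lt_of_le_of_ne (h4 v) hcon
  have h6 : ∑ v, x v < ∑ v, y v :=
    Finset.sum_lt_sum (fun v _ => h4 v) ⟨v, Finset.mem_univ v, h5⟩
  linarith

theorem pairSol_of_value (v0 : Fin n) (h : G.ValueAtLeastHalf v0) :
    ∃ x w : Fin n → ℤ, (∀ v, 0 ≤ x v ∧ x v ≤ bigN n) ∧ (∀ v, 0 ≤ w v ∧ w v ≤ bigN n) ∧
      PairSol G (bigN n) (thr n) v0 x w := by
  classical
  obtain ⟨σ, hσ⟩ := h
  have hNZ : (0 : ℤ) ≤ (bigN n : ℤ) := by positivity
  obtain ⟨x, hx, hfix⟩ := exists_fix G hNZ σ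
  have hwb := fun v => wOf_bounds G hNZ σ hx v
  refine ⟨x, wOf G (bigN n) σ x, hx, hwb, ?_, fun v => ?_, fun v => ?_⟩
  · -- the threshold
    let τ : Fin n → Bool := fun v =>
      if pv (bigN n) x (G.succ v false) ≤ pv (bigN n) x (G.succ v true) then false else true
    set p := G.winProb σ τ with hp
    have hxw : ∀ v, pv (bigN n) x (G.next σ τ v false) + pv (bigN n) x (G.next σ τ v true) ≤
        2 * x v + 3 := by
      intro v
      have h1 : wOf G (bigN n) σ x v - 1 ≤ x v := by
        conv_rhs => rw [hfix v]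
        exact le_max_right _ _
      have h2 : pv (bigN n) x (G.next σ τ v false) + pv (bigN n) x (G.next σ τ v true) ≤
          2 * wOf G (bigN n) σ x v + 1 := by
        unfold wOf SSG.next
        cases hk : G.kind v with
        | max => simp only; linarith
        | min =>
          simp only
          by_cases hle : pv (bigN n) x (G.succ v false) ≤ pv (bigN n) x (G.succ v true)
          · have : τ v = false := by simp only [τ]; rw [if_pos hle]
            rw [this, min_eq_left hle]; linarith
          · have : τ v = true := by simp only [τ]; rw [if_neg hle]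
            rw [this, min_eq_right (not_le.1 hle).le]; linarith
        | avg => simp only; omega
      linarith
    have hext : ∀ q, ext (fun v => (bigN n : ℝ) * p v - x v) (fun _ => 0) q =
        (bigN n : ℝ) * ext p sinkVal q - ((pv (bigN n) x q : ℤ) : ℝ) := by
      intro q
      rcases q with u | b
      · simp [ext, pv]
      · cases b <;> simp [ext, pv, sinkVal]
    have hmax := max_principle (redir_stopping G σ τ) (fun v => (bigN n : ℝ) * p v - x v)
      (fun _ => 0) (3 / 2) (by norm_num) (fun _ => le_rfl) (fun v => by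
        by_cases hpv : p v = 0
        · have h1 : ∀ i, redir (G.next σ τ) (G.winProb σ τ) v i = Sum.inr false := by
            intro i; simp only [redir]; rw [if_pos]; exact hpv
          rw [h1, h1, hpv]
          simp only [ext]
          have : (0 : ℝ) ≤ x v := by exact_mod_cast (hx v).1
          linarith
        · have h1 : ∀ i, redir (G.next σ τ) (G.winProb σ τ) v i = G.next σ τ v i := by
            intro i; simp only [redir]; rw [if_neg]; exact hpv
          rw [h1, h1, hext, hext]
          have h2 := G.winProb_eq σ τ v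
          rw [← hp] at h2
          have h3 : ((pv (bigN n) x (G.next σ τ v false) : ℤ) : ℝ) +
              pv (bigN n) x (G.next σ τ v true) ≤ 2 * x v + 3 := by exact_mod_cast hxw v
          have h7 : (bigN n : ℝ) * p v = (bigN n * ext p sinkVal (G.next σ τ v false) +
              bigN n * ext p sinkVal (G.next σ τ v true)) / 2 := by rw [h2]; ring
          linarith) v0
    have h1 := hσ τ
    rw [← hp] at h1
    have h2 := two_thr n
    have hN0 : (0 : ℝ) < bigN n := by unfold bigN; positivity
    have h3 : ((thr n : ℕ) : ℝ) ≤ x v0 := by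
      have h4 : (0 : ℝ) < 2 ^ n := by positivity
      nlinarith
    exact_mod_cast h3
  · have h1 := hfix v
    rcases max_choice 0 (wOf G (bigN n) σ x v - 1) with h | h
    · left; rw [h1, h]
    · right; rw [h] at h1; exact h1.le
  · unfold wOf
    cases hk : G.kind v with
    | max =>
      simp only
      cases hs : σ v
      · left; exact le_rfl
      · right; exact le_rfl
    | min => exact ⟨min_le_left _ _, min_le_right _ _⟩
    | avg => simp only; omega

/-- The value of `v0` is at least one half iff the system has a solution. -/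
theorem value_iff_pairSol (v0 : Fin n) : G.ValueAtLeastHalf v0 ↔
    ∃ x w : Fin n → ℤ, PairSol G (bigN n) (thr n) v0 x w := by
  constructor
  · intro h
    obtain ⟨x, w, -, -, hs⟩ := pairSol_of_value G v0 h
    exact ⟨x, w, hs⟩
  · rintro ⟨x, w, hs⟩
    exact value_of_pairSol G v0 x w hs

end Pool.Agent.Work.MP_85af13_lc.G
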