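import Pool.Agent.Work.MP_85af13_lc.G.SysDefs
import Pool.Agent.Work.MP_85af13_lc.G.D.Value
import Pool.Agent.Work.MP_85af13_lc.Reduce

/-!
The coded min-max-average system of a coded simple stochastic game, and its correctness.
-/

set_option autoImplicit false
set_option linter.unusedSimpArgs false

namespace Pool.Agent.Work.MP_85af13_lc.G

open Pool.Agent.Work.PolyTime
open Pool.Agent.Work.MP_63b90e_lc (addB shiftB)

/-- Binary code of `bigN n`. -/
def nB (n : ℕ) : List Bool := shiftB ((n + 1) * (n + 1) + 3) [true]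

/-- Binary code of `thr n`. -/
def thB (n : ℕ) : List Bool :=
  shiftB (n + 2) ((List.range ((n + 1) * (n + 1) - n)).map fun _ => true)

theorem binVal_nB (n : ℕ) : binVal (nB n) = bigN n := by
  rw [nB, binVal_shiftB, bigN, sq]
  simp [binVal]

theorem binVal_ones (k : ℕ) : binVal ((List.range k).map fun _ => true) + 1 = 2 ^ k := by
  have h : ((List.range k).map fun _ => true) = List.replicate k true := by
    rw [List.eq_replicate_iff]; simp
  rw [h]
  clear h
  induction k with
  | zero => simp [binVal]
  | succ k ih =>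
    have h1 : binVal (List.replicate (k + 1) true) = 1 + 2 * binVal (List.replicate k true) := by
      rw [List.replicate_succ, binVal]; simp
    rw [h1, pow_succ]
    omega

theorem binVal_thB (n : ℕ) : binVal (thB n) = thr n := by
  rw [thB, binVal_shiftB, thr]
  have h := binVal_ones ((n + 1) * (n + 1) - n)
  have h2 : (n + 1) ^ 2 + 2 = (n + 2) + ((n + 1) * (n + 1) - n) := by
    have : n ≤ (n + 1) * (n + 1) := by nlinarith
    rw [sq]; omega
  rw [h2, pow_add 2 (n + 2), ← h, Nat.mul_add (2 ^ (n + 2)), mul_one, Nat.add_sub_cancel]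

/-- The target and the constant of a position. -/
def posC (n : ℕ) : ℕ ⊕ Bool → Option ℕ × Bool × List Bool
  | Sum.inl u => (bif decide (u + 1 ≤ n) then some u else none, false, [])
  | Sum.inr b => (none, false, bif b then nB n else [])

/-- The node of the variable `x v`: the maximum of `0` and `w v - 1`. -/
def xNode (n v : ℕ) : SNode := (some true, (none, false, []), (some (n + v), true, [true]))

/-- The node of the variable `w v`. -/
def wNode (n : ℕ) (a : Option Bool × (ℕ ⊕ Bool) × (ℕ ⊕ Bool)) : SNode :=
  (a.1, posC n a.2.1, posC n a.2.2)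

/-- The system of a game. -/
def toSysC (I : SInst) : SysCode :=
  ((List.range I.1.length).map (fun v => xNode I.1.length v) ++
    I.1.map (fun a => wNode I.1.length a), nB I.1.length, thB I.1.length, I.2)

theorem toSysC_length (I : SInst) : (toSysC I).1.length = I.1.length + I.1.length := by
  simp [toSysC]

/-- The nodes. -/
def sysE (I : SInst) : Fin I.1.length ⊕ Fin I.1.length ≃ Fin (toSysC I).1.length :=
  finSumFinEquiv.trans (finCongr (toSysC_length I).symm)

theorem sysE_inl (I : SInst) (v : Fin I.1.length) : ((sysE I (Sum.inl v) : Fin _) : ℕ) = v := by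
  simp [sysE]

theorem sysE_inr (I : SInst) (v : Fin I.1.length) :
    ((sysE I (Sum.inr v) : Fin _) : ℕ) = I.1.length + v := by
  simp [sysE, add_comm]

theorem nodeOf_inl (I : SInst) (v : Fin I.1.length) :
    nodeOf (toSysC I) (sysE I (Sum.inl v) : Fin _) = xNode I.1.length v := by
  rw [sysE_inl, nodeOf, toSysC, List.getD_append _ _ _ _ (by simp),
    List.getD_eq_getElem _ _ (by simp)]
  simp

theorem nodeOf_inr (I : SInst) (v : Fin I.1.length) :
    nodeOf (toSysC I) (sysE I (Sum.inr v) : Fin _) =
      wNode I.1.length (I.1.getD v (none, Sum.inr false, Sum.inr false)) := by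
  rw [sysE_inr, nodeOf, toSysC, List.getD_append_right _ _ _ _ (by simp)]
  simp only [List.length_map, List.length_range, Nat.add_sub_cancel_left]
  rw [List.getD_eq_getElem _ _ (by simp), List.getElem_map, List.getD_eq_getElem _ _ v.2]

theorem pos_value (I : SInst) (x : Fin (toSysC I).1.length → ℤ) (q : ℕ ⊕ Bool) :
    (toTgt (toSysC I).1.length (posC I.1.length q).1).elim 0 x + sInt (posC I.1.length q).2 =
      pv (bigN I.1.length) (fun v => x (sysE I (Sum.inl v))) (toPos I.1.length q) := by
  rcases q with u | b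
  · by_cases hu : u < I.1.length
    · have h1 : u < (toSysC I).1.length := by rw [toSysC_length]; omega
      have h2 : (⟨u, h1⟩ : Fin (toSysC I).1.length) = sysE I (Sum.inl ⟨u, hu⟩) := by
        apply Fin.ext; rw [sysE_inl]
      simp [posC, toPos, pv, sInt, toTgt, binVal, hu, h1, Nat.succ_le_of_lt hu, h2]
    · have h3 : ¬ (u + 1 ≤ I.1.length) := by omega
      simp [posC, toPos, pv, sInt, toTgt, binVal, hu, h3]
  · cases b
    · simp [posC, toPos, pv, sInt, toTgt, binVal]
    · simp [posC, toPos, pv, sInt, toTgt, binVal_nB]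

theorem sysSol_iff (I : SInst) (h : I.2 < I.1.length) (v0 : Fin (toSysC I).1.length)
    (h0 : (v0 : ℕ) = I.2) (x : Fin (toSysC I).1.length → ℤ) :
    SysSol (toSysC I) v0 x ↔ PairSol (gameOf I) (bigN I.1.length) (thr I.1.length) ⟨I.2, h⟩
      (fun v => x (sysE I (Sum.inl v))) (fun v => x (sysE I (Sum.inr v))) := by
  have hv0 : v0 = sysE I (Sum.inl ⟨I.2, h⟩) := by
    apply Fin.ext; rw [sysE_inl, h0]
  have hth : binVal (toSysC I).2.2.1 = thr I.1.length := binVal_thB _
  unfold SysSol PairSol
  rw [hth, hv0, (sysE I).surjective.forall, Sum.forall]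
  refine and_congr_right fun _ => and_congr (forall_congr' fun v => ?_) (forall_congr' fun v => ?_)
  · have hs : I.1.length + (v : ℕ) < (toSysC I).1.length := by rw [toSysC_length]; omega
    have h2 : (⟨I.1.length + (v : ℕ), hs⟩ : Fin (toSysC I).1.length) = sysE I (Sum.inr v) := by
      apply Fin.ext; rw [sysE_inr]
    have hk : (sysOf (toSysC I)).kind (sysE I (Sum.inl v)) = Kind.max := by
      simp only [sysOf, nodeOf_inl, xNode, kindOf]
    have ht0 : (sysOf (toSysC I)).tgt (sysE I (Sum.inl v)) false = none := by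
      simp only [sysOf, nodeOf_inl, xNode, cond_false, toTgt]
    have ht1 : (sysOf (toSysC I)).tgt (sysE I (Sum.inl v)) true = some (sysE I (Sum.inr v)) := by
      simp only [sysOf, nodeOf_inl, xNode, cond_true, toTgt, hs, dite_true, h2]
    have hc0 : (sysOf (toSysC I)).c (sysE I (Sum.inl v)) false = 0 := by
      simp [sysOf, nodeOf_inl, xNode, cond_false, sInt, binVal]
    have hc1 : (sysOf (toSysC I)).c (sysE I (Sum.inl v)) true = -1 := by
      simp [sysOf, nodeOf_inl, xNode, cond_false, sInt, binVal]
    rw [hk]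
    simp only [ht0, ht1, hc0, hc1, Option.elim]
    constructor <;> rintro (h | h) <;> [left; right; left; right] <;> linarith
  · set a := I.1.getD (v : ℕ) (none, Sum.inr false, Sum.inr false) with ha
    have hk : (sysOf (toSysC I)).kind (sysE I (Sum.inr v)) = (gameOf I).kind v := by
      simp only [sysOf, nodeOf_inr, wNode, gameOf]
    have hp : ∀ i, ((sysOf (toSysC I)).tgt (sysE I (Sum.inr v)) i).elim 0 x +
        (sysOf (toSysC I)).c (sysE I (Sum.inr v)) i =
        pv (bigN I.1.length) (fun v => x (sysE I (Sum.inl v))) ((gameOf I).succ v i) := by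
      intro i
      cases i
      · have := pos_value I x a.2.1
        simpa only [sysOf, nodeOf_inr, wNode, gameOf, cond_false, ← ha] using this
      · have := pos_value I x a.2.2
        simpa only [sysOf, nodeOf_inr, wNode, gameOf, cond_true, ← ha] using this
    have hf := hp false
    have ht := hp true
    rw [hk, ← hf, ← ht]
    cases (gameOf I).kind v
    · exact Iff.rfl
    · exact Iff.rfl
    · simp only
      constructor <;> intro h <;> linarith

theorem toSysC_complete (I : SInst) (h : I.2 < I.1.length) (v0 : Fin (toSysC I).1.length)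
    (h0 : (v0 : ℕ) = I.2) (hG : (gameOf I).ValueAtLeastHalf ⟨I.2, h⟩) :
    ∃ x : Fin (toSysC I).1.length → ℤ, (∀ v, 0 ≤ x v ∧ x v ≤ binVal (toSysC I).2.1) ∧
      SysSol (toSysC I) v0 x := by
  obtain ⟨x, w, hx, hw, hs⟩ := pairSol_of_value (gameOf I) ⟨I.2, h⟩ hG
  refine ⟨fun v => Sum.elim x w ((sysE I).symm v), ?_, ?_⟩
  · have hN : binVal (toSysC I).2.1 = bigN I.1.length := binVal_nB _
    rw [(sysE I).surjective.forall, hN]
    rintro (v | v)
    · simpa using hx v
    · simpa using hw v
  · rw [sysSol_iff I h v0 h0]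
    simpa using hs

theorem toSysC_sound (I : SInst) (h : I.2 < I.1.length) (v0 : Fin (toSysC I).1.length)
    (h0 : (v0 : ℕ) = I.2) (hS : ∃ x : Fin (toSysC I).1.length → ℤ, SysSol (toSysC I) v0 x) :
    (gameOf I).ValueAtLeastHalf ⟨I.2, h⟩ := by
  obtain ⟨x, hx⟩ := hS
  rw [sysSol_iff I h v0 h0] at hx
  exact value_of_pairSol (gameOf I) _ _ _ hx

/-! ### Polynomial time -/

section

variable {α : Type} [Code α]

theorem PTime.nB {n : α → ℕ} (hn : PTime n) : PTime (fun x => G.nB (n x)) := by
  unfold G.nB
  exact PTime.shiftB' (PTime.natAdd (PTime.natMul (PTime.succ hn) (PTime.succ hn))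
    (PTime.const _)) (PTime.const _)

theorem PTime.thB {n : α → ℕ} (hn : PTime n) : PTime (fun x => G.thB (n x)) := by
  unfold G.thB
  refine PTime.shiftB' (PTime.natAdd hn (PTime.const _)) (PTime.map (f := fun _ _ => true)
    (PTime.range (PTime.natSub (PTime.natMul (PTime.succ hn) (PTime.succ hn)) hn))
    (PTime.const _))

theorem PTime.posC {n : α → ℕ} {q : α → ℕ ⊕ Bool} (hn : PTime n) (hq : PTime q) :
    PTime (fun x => G.posC (n x) (q x)) := by
  refine PTime.sumCases hq
    (g := fun y : α × ℕ => (bif decide (y.2 + 1 ≤ n y.1) then some y.2 else none, false, []))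
    (h := fun y : α × Bool => (none, false, bif y.2 then G.nB (n y.1) else [])) ?_ ?_ ?_ ?_
  · refine PTime.prodMk ?_ (PTime.const _)
    exact PTime.cond (PTime.natLe (PTime.succ PTime.snd) (hn.comp PTime.fst))
      (PTime.mkSome PTime.snd) (PTime.const _)
  · refine PTime.prodMk (PTime.const _) (PTime.prodMk (PTime.const _) ?_)
    exact PTime.cond PTime.snd (PTime.nB (hn.comp PTime.fst)) (PTime.const _)
  · intro x b hb; rw [hb]; rfl
  · intro x b hb; rw [hb]; rfl

theorem PTime.toSysC {I : α → SInst} (hI : PTime I) : PTime (fun x => G.toSysC (I x)) := by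
  have hn : PTime (fun x => (I x).1.length) := PTime.length (PTime.fst.comp hI)
  unfold G.toSysC
  refine PTime.prodMk (PTime.append ?_ ?_) (PTime.prodMk (PTime.nB hn)
    (PTime.prodMk (PTime.thB hn) (PTime.snd.comp hI)))
  · refine PTime.map (f := fun x v => xNode (I x).1.length v) (PTime.range hn) ?_
    unfold xNode
    refine PTime.prodMk (PTime.const _) (PTime.prodMk (PTime.const _) (PTime.prodMk
      (PTime.mkSome (PTime.natAdd (hn.comp PTime.fst) PTime.snd)) (PTime.const _)))
  · refine PTime.map (f := fun x a => wNode (I x).1.length a) (PTime.fst.comp hI) ?_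
    unfold wNode
    refine PTime.prodMk (by fun_prop) (PTime.prodMk
      (PTime.posC (hn.comp PTime.fst) (by fun_prop)) (PTime.posC (hn.comp PTime.fst) (by fun_prop)))

end

end Pool.Agent.Work.MP_85af13_lc.G
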