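import Pool.Agent.Work.MP_85af13_lc.G.D.Code
import Pool.Agent.Work.MP_85af13_lc.G.Red

/-!
Simple stochastic games reduce to the halting of Eulerian chip-firing games, given the gadget for
min-max-average systems.
-/

set_option autoImplicit false

namespace Pool.Agent.Work.MP_85af13_lc.G

open Pool.Agent.Work.PolyTime

theorem stochastic_eq : stochastic = problem (fun I : SInst => I.2 < I.1.length)
    (fun I => ∃ h : I.2 < I.1.length, (gameOf I).ValueAtLeastHalf ⟨I.2, h⟩) := by
  ext w
  constructor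
  · rintro ⟨I, hI, h, hv⟩; exact ⟨I, hI, h, h, hv⟩
  · rintro ⟨I, hI, -, h, hv⟩; exact ⟨I, hI, h, hv⟩

/-- The reduction, given the properties of the gadget graphs of min-max-average systems. -/
theorem stochastic_le_of (hP : PTime gInst)
    (hM : ∀ (Y : SysCode) (v0 : Fin Y.1.length), (v0 : ℕ) = Y.2.2.2 →
      (graphOf (gInst Y)).Eulerian ∧
      ((∃ x : Fin Y.1.length → ℤ, (∀ v, 0 ≤ x v ∧ x v ≤ binVal Y.2.1) ∧ SysSol Y v0 x) →
        (graphOf (gInst Y)).Terminates (chipsOf (gInst Y))) ∧
      ((graphOf (gInst Y)).Terminates (chipsOf (gInst Y)) →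
        ∃ x : Fin Y.1.length → ℤ, SysSol Y v0 x)) :
    PolyReducible stochastic haltingEulerian := by
  have hE : haltingEulerian = problem (fun I : Inst => (graphOf I).Eulerian)
      (fun I => (graphOf I).Terminates (chipsOf I)) := rfl
  rw [stochastic_eq, hE]
  refine reducible_of (t := fun I : SInst => decide (I.2 + 1 ≤ I.1.length))
    (F := fun I => gInst (toSysC I)) (fun I => ?_) ?_ ?_ (fun I hI => ?_) (fun I hI => ?_)
  · simp
  · exact PTime.natLe (PTime.succ PTime.snd) (PTime.length PTime.fst)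
  · exact hP.comp (PTime.toSysC PTime.id)
  · have hv : I.2 < (toSysC I).1.length := by rw [toSysC_length]; omega
    exact (hM (toSysC I) ⟨I.2, hv⟩ rfl).1
  · have hv : I.2 < (toSysC I).1.length := by rw [toSysC_length]; omega
    obtain ⟨-, h1, h2⟩ := hM (toSysC I) ⟨I.2, hv⟩ rfl
    constructor
    · rintro ⟨h, hG⟩
      exact h1 (toSysC_complete I h ⟨I.2, hv⟩ rfl hG)
    · intro hT
      exact ⟨hI, toSysC_sound I hI ⟨I.2, hv⟩ rfl (h2 hT)⟩

end Pool.Agent.Work.MP_85af13_lc.G
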